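import Pool.Agent.Helper79.PN.Lem

set_option autoImplicit false

/-!
LBD: coercivity.
-/

open scoped Classical

namespace Pool.Agent.Helper63.PN

open Pool.Agent.Helper79.PN

/-- load of the vertices of degree 3 -/
noncomputable def lbdLoad (P : Pen) (K : Lam) : ℝ :=
  ∑ m, (ind (X1 P (K - e (m + 1)) m) + ind (X1 P (K - e (m - 1)) m) +
        ind (X1 P (K - (e (m + 2) + e (m - 2))) m) + ind (T1 P K m))

/-- cost of the vertices of higher degree -/
noncomputable def lbdCost (P : Pen) (s : ℝ) (K : Lam) : ℝ :=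
  (13 / 50 * s + 1 / 2) * ∑ m, (ind (X1 P (K - e (m - 2)) m) +
          ind (X1 P (K - e (m + 2)) m)) +
        (13 / 50 * s + 18 / 25) * ∑ m, ind (X1 P K m) +
        (13 / 50 * s + 3 / 10) * ∑ m, ind (T1 P (K - (e (m + 1) + e (m - 1))) m) +
        1 * ∑ m, ind (X1 P (K - (e (m + 1) + e (m - 1))) m) +
        25 / 72 * ∑ m, ind (X1 P (K - (e (m + 2) + e (m - 2) + e m)) m) +
        5 / 6 * ∑ m, ind (T1 P (K - e m) m)

theorem indsum_bd (p : ZMod 5 → Prop) : 0 ≤ ∑ m, ind (p m) ∧ ∑ m, ind (p m) ≤ 5 := by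
  constructor
  · exact Finset.sum_nonneg fun m _ => ind_nonneg _
  · rw [sum5 0]
    have h0 := ind_le_one (p 0)
    have h1 := ind_le_one (p (0 + 1))
    have h2 := ind_le_one (p (0 - 1))
    have h3 := ind_le_one (p (0 + 2))
    have h4 := ind_le_one (p (0 - 2))
    linarith

theorem load_bd (P : Pen) (K : Lam) : |lbdLoad P K| ≤ 100 := by
  unfold lbdLoad
  rw [Finset.sum_add_distrib, Finset.sum_add_distrib, Finset.sum_add_distrib]
  have h1 := indsum_bd fun m => X1 P (K - e (m + 1)) m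
  have h2 := indsum_bd fun m => X1 P (K - e (m - 1)) m
  have h3 := indsum_bd fun m => X1 P (K - (e (m + 2) + e (m - 2))) m
  have h4 := indsum_bd fun m => T1 P K m
  rw [abs_le]
  constructor <;> linarith [h1.1, h1.2, h2.1, h2.2, h3.1, h3.2, h4.1, h4.2]

theorem cost_bd (P : Pen) (s : ℝ) (hs : 0 < s) (hs1 : s ≤ 1 / 5) (K : Lam) :
    |lbdCost P s K| ≤ 100 := by
  unfold lbdCost
  rw [Finset.sum_add_distrib]
  have h1 := indsum_bd fun m => X1 P (K - e (m - 2)) m
  have h2 := indsum_bd fun m => X1 P (K - e (m + 2)) m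
  have h3 := indsum_bd fun m => X1 P K m
  have h4 := indsum_bd fun m => T1 P (K - (e (m + 1) + e (m - 1))) m
  have h5 := indsum_bd fun m => X1 P (K - (e (m + 1) + e (m - 1))) m
  have h6 := indsum_bd fun m => X1 P (K - (e (m + 2) + e (m - 2) + e m)) m
  have h7 := indsum_bd fun m => T1 P (K - e m) m
  have key : ∀ c x B : ℝ, 0 ≤ c → c ≤ 1 → 0 ≤ x → x ≤ B → 0 ≤ c * x ∧ c * x ≤ B := by
    intro c x B hc hc1 hx hxB
    exact ⟨mul_nonneg hc hx, by nlinarith⟩
  have k1 := key (13 / 50 * s + 1 / 2)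
    (∑ m, ind (X1 P (K - e (m - 2)) m) + ∑ m, ind (X1 P (K - e (m + 2)) m)) 10
    (by linarith) (by linarith) (by linarith [h1.1, h2.1]) (by linarith [h1.2, h2.2])
  have k2 := key (13 / 50 * s + 18 / 25) _ _ (by linarith) (by linarith) h3.1 h3.2
  have k3 := key (13 / 50 * s + 3 / 10) _ _ (by linarith) (by linarith) h4.1 h4.2
  have k4 := key 1 _ _ (by linarith) (by linarith) h5.1 h5.2
  have k5 := key (25 / 72) _ _ (by norm_num) (by norm_num) h6.1 h6.2
  have k6 := key (5 / 6) _ _ (by norm_num) (by norm_num) h7.1 h7.2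
  rw [abs_le]
  constructor
  · linarith [k1.1, k2.1, k3.1, k4.1, k5.1, k6.1]
  · linarith [k1.2, k2.2, k3.2, k4.2, k5.2, k6.2]

theorem X1_off {P : Pen} {K : Lam} {m : ZMod 5} (h : P.n K ≠ 1) : ind (X1 P K m) = 0 :=
  ind_false fun h1 => h h1.1

theorem T1_off {P : Pen} {K : Lam} {m : ZMod 5} (h : P.n K ≠ 1) : ind (T1 P K m) = 0 :=
  ind_false fun h1 => h h1.1

theorem n_sub2 (P : Pen) (K : Lam) (i j : ZMod 5) : P.n (K - (e i + e j)) = P.n K - 2 := by
  rw [← sub_sub, P.n_sub, P.n_sub]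
  ring

theorem n_sub3 (P : Pen) (K : Lam) (i j k : ZMod 5) :
    P.n (K - (e i + e j + e k)) = P.n K - 3 := by
  rw [← sub_sub, P.n_sub, n_sub2]
  ring

/-- load at the levels -/
theorem load_1 {P : Pen} {K : Lam} (h : P.n K = 1) : lbdLoad P K = ∑ m, ind (T1 P K m) := by
  unfold lbdLoad
  refine Finset.sum_congr rfl fun m _ => ?_
  rw [X1_off (by rw [P.n_sub]; omega), X1_off (by rw [P.n_sub]; omega),
    X1_off (by rw [n_sub2]; omega)]
  ring

theorem load_2 {P : Pen} {K : Lam} (h : P.n K = 2) :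
    lbdLoad P K = ∑ m, (ind (X1 P (K - e (m + 1)) m) + ind (X1 P (K - e (m - 1)) m)) := by
  unfold lbdLoad
  refine Finset.sum_congr rfl fun m _ => ?_
  rw [X1_off (K := K - (e (m + 2) + e (m - 2))) (by rw [n_sub2]; omega), T1_off (by omega)]
  ring

theorem load_3 {P : Pen} {K : Lam} (h : P.n K = 3) :
    lbdLoad P K = ∑ m, ind (X1 P (K - (e (m + 2) + e (m - 2))) m) := by
  unfold lbdLoad
  refine Finset.sum_congr rfl fun m _ => ?_
  rw [X1_off (K := K - e (m + 1)) (by rw [P.n_sub]; omega),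
    X1_off (K := K - e (m - 1)) (by rw [P.n_sub]; omega), T1_off (by omega)]
  ring

theorem load_4 {P : Pen} {K : Lam} (h : P.n K = 4) : lbdLoad P K = 0 := by
  unfold lbdLoad
  refine Finset.sum_eq_zero fun m _ => ?_
  rw [X1_off (by rw [P.n_sub]; omega), X1_off (by rw [P.n_sub]; omega),
    X1_off (by rw [n_sub2]; omega), T1_off (by omega)]
  ring

/-- cost at the levels -/
theorem cost_1 {P : Pen} {s : ℝ} {K : Lam} (h : P.n K = 1) :
    lbdCost P s K = (13 / 50 * s + 18 / 25) * ∑ m, ind (X1 P K m) := by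
  have z1 : ∀ i m, ind (X1 P (K - e i) m) = 0 := fun i m => X1_off (by rw [P.n_sub]; omega)
  have z2 : ∀ i j m, ind (X1 P (K - (e i + e j)) m) = 0 :=
    fun i j m => X1_off (by rw [n_sub2]; omega)
  have z3 : ∀ i j k m, ind (X1 P (K - (e i + e j + e k)) m) = 0 :=
    fun i j k m => X1_off (by rw [n_sub3]; omega)
  have z4 : ∀ i m, ind (T1 P (K - e i) m) = 0 := fun i m => T1_off (by rw [P.n_sub]; omega)
  have z5 : ∀ i j m, ind (T1 P (K - (e i + e j)) m) = 0 :=
    fun i j m => T1_off (by rw [n_sub2]; omega)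
  unfold lbdCost
  simp only [z1, z2, z3, z4, z5, Finset.sum_const_zero, add_zero, mul_zero, zero_add]

theorem cost_2 {P : Pen} {s : ℝ} {K : Lam} (h : P.n K = 2) :
    lbdCost P s K = (13 / 50 * s + 1 / 2) * ∑ m, (ind (X1 P (K - e (m - 2)) m) +
      ind (X1 P (K - e (m + 2)) m)) + 5 / 6 * ∑ m, ind (T1 P (K - e m) m) := by
  have z1 : ∀ m, ind (X1 P K m) = 0 := fun m => X1_off (by omega)
  have z2 : ∀ i j m, ind (X1 P (K - (e i + e j)) m) = 0 :=
    fun i j m => X1_off (by rw [n_sub2]; omega)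
  have z3 : ∀ i j k m, ind (X1 P (K - (e i + e j + e k)) m) = 0 :=
    fun i j k m => X1_off (by rw [n_sub3]; omega)
  have z5 : ∀ i j m, ind (T1 P (K - (e i + e j)) m) = 0 :=
    fun i j m => T1_off (by rw [n_sub2]; omega)
  unfold lbdCost
  simp only [z1, z2, z3, z5, Finset.sum_const_zero, add_zero, mul_zero]

theorem cost_3 {P : Pen} {s : ℝ} {K : Lam} (h : P.n K = 3) :
    lbdCost P s K = (13 / 50 * s + 3 / 10) * ∑ m, ind (T1 P (K - (e (m + 1) + e (m - 1))) m) +
      1 * ∑ m, ind (X1 P (K - (e (m + 1) + e (m - 1))) m) := by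
  have z0 : ∀ m, ind (X1 P K m) = 0 := fun m => X1_off (by omega)
  have z1 : ∀ i m, ind (X1 P (K - e i) m) = 0 := fun i m => X1_off (by rw [P.n_sub]; omega)
  have z3 : ∀ i j k m, ind (X1 P (K - (e i + e j + e k)) m) = 0 :=
    fun i j k m => X1_off (by rw [n_sub3]; omega)
  have z4 : ∀ i m, ind (T1 P (K - e i) m) = 0 := fun i m => T1_off (by rw [P.n_sub]; omega)
  unfold lbdCost
  simp only [z0, z1, z3, z4, Finset.sum_const_zero, add_zero, mul_zero, zero_add]

theorem cost_4 {P : Pen} {s : ℝ} {K : Lam} (h : P.n K = 4) :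
    lbdCost P s K = 25 / 72 * ∑ m, ind (X1 P (K - (e (m + 2) + e (m - 2) + e m)) m) := by
  have z0 : ∀ m, ind (X1 P K m) = 0 := fun m => X1_off (by omega)
  have z1 : ∀ i m, ind (X1 P (K - e i) m) = 0 := fun i m => X1_off (by rw [P.n_sub]; omega)
  have z2 : ∀ i j m, ind (X1 P (K - (e i + e j)) m) = 0 :=
    fun i j m => X1_off (by rw [n_sub2]; omega)
  have z4 : ∀ i m, ind (T1 P (K - e i) m) = 0 := fun i m => T1_off (by rw [P.n_sub]; omega)
  have z5 : ∀ i j m, ind (T1 P (K - (e i + e j)) m) = 0 :=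
    fun i j m => T1_off (by rw [n_sub2]; omega)
  unfold lbdCost
  simp only [z0, z1, z2, z4, z5, Finset.sum_const_zero, add_zero, mul_zero, zero_add]

/-- loads at levels 1, 2 -/
theorem LD_low (hBT : ST_BT) {P : Pen} {K : Lam} (h : P.n K = 1 ∨ P.n K = 2) :
    lbdLoad P K + lbdLoad P.mir (-K) ≤ 1 := by
  have h1 := hBT P K
  have h2 := ind_le_one (IsT P K)
  rcases h with h | h
  · have h3 := h1.1 h
    rw [load_1 h, load_4 (P := P.mir) (K := -K) (by rw [Pen.mir_n, neg_neg]; omega)]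
    linarith
  · have h3 := h1.2 h
    rw [load_2 h, load_3 (P := P.mir) (K := -K) (by rw [Pen.mir_n, neg_neg]; omega)]
    rw [Finset.sum_add_distrib] at h3
    have h4 : ∑ m, ind (X1 P.mir (-K - (e (m + 2) + e (m - 2))) m) =
        ∑ m, ind (X1 P.mir (-(K + e (m + 2) + e (m - 2))) m) := by
      refine Finset.sum_congr rfl fun m _ => ?_
      rw [show -K - (e (m + 2) + e (m - 2)) = -(K + e (m + 2) + e (m - 2)) by abel]
    rw [h4]
    linarith

theorem LD_le (hBT : ST_BT) {P : Pen} {K : Lam} (h : 1 ≤ P.n K) (h' : P.n K ≤ 4) :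
    lbdLoad P K + lbdLoad P.mir (-K) ≤ 1 := by
  by_cases h1 : P.n K ≤ 2
  · exact LD_low hBT (by omega)
  · have h2 := LD_low hBT (P := P.mir) (K := -K) (by rw [Pen.mir_n, neg_neg]; omega)
    rw [Pen.mir_mir, neg_neg] at h2
    linarith

/-- costs at levels 1, 2 -/
theorem CS_low (hBU1 : ST_BU1) (hBU2 : ST_BU2) {P : Pen} {s : ℝ} (hs : 0 < s) (hs1 : s ≤ 1 / 5)
    {K : Lam} (h : P.n K = 1 ∨ P.n K = 2) (hv : InV P K) (ht : ¬ IsT P K) :
    lbdCost P s K + lbdCost P.mir s (-K) + s / 100 ≤ dg P K - 3 - s := by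
  rcases h with h | h
  · have h1 := hBU1 P K (13 / 50 * s + 18 / 25) (25 / 72) h hv ht (by linarith) (by norm_num)
    have h2 : max (13 / 50 * s + 18 / 25) (5 * (25 / 72) - 1) ≤ 1 - s - s / 100 :=
      max_le (by linarith) (by linarith)
    rw [cost_1 h, cost_4 (P := P.mir) (K := -K) (by rw [Pen.mir_n, neg_neg]; omega)]
    have h4 : ∑ m, ind (X1 P.mir (-K - (e (m + 2) + e (m - 2) + e m)) m) =
        ∑ m, ind (X1 P.mir (-(K + e (m + 2) + e (m - 2) + e m)) m) := by
      refine Finset.sum_congr rfl fun m _ => ?_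
      rw [show -K - (e (m + 2) + e (m - 2) + e m) = -(K + e (m + 2) + e (m - 2) + e m) by abel]
    rw [h4]
    linarith
  · have h1 := hBU2 P K (13 / 50 * s + 1 / 2) 1 (13 / 50 * s + 3 / 10) (5 / 6) h hv ht
      (by linarith) (by norm_num) (by linarith) (by norm_num) (by norm_num)
    have h2 : max (5 * (13 / 50 * s + 3 / 10))
        (max (2 * (13 / 50 * s + 1 / 2)) (13 / 50 * s + 1 / 2 + 1)) ≤ 2 - s - s / 100 :=
      max_le (by linarith) (max_le (by linarith) (by linarith))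
    rw [cost_2 h, cost_3 (P := P.mir) (K := -K) (by rw [Pen.mir_n, neg_neg]; omega)]
    have h4 : ∑ m, ind (X1 P.mir (-K - (e (m + 1) + e (m - 1))) m) =
        ∑ m, ind (X1 P.mir (-(K + e (m + 1) + e (m - 1))) m) := by
      refine Finset.sum_congr rfl fun m _ => ?_
      rw [show -K - (e (m + 1) + e (m - 1)) = -(K + e (m + 1) + e (m - 1)) by abel]
    have h5 : ∑ m, ind (T1 P.mir (-K - (e (m + 1) + e (m - 1))) m) =
        ∑ m, ind (T1 P.mir (-(K + e (m + 1) + e (m - 1))) m) := by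
      refine Finset.sum_congr rfl fun m _ => ?_
      rw [show -K - (e (m + 1) + e (m - 1)) = -(K + e (m + 1) + e (m - 1)) by abel]
    rw [h4, h5]
    linarith

theorem CS_le (hADJ : ST_ADJ) (hBU1 : ST_BU1) (hBU2 : ST_BU2) {P : Pen} {s : ℝ} (hs : 0 < s)
    (hs1 : s ≤ 1 / 5) {K : Lam} (hv : InV P K) (ht : ¬ IsT P K) :
    lbdCost P s K + lbdCost P.mir s (-K) + s / 100 ≤ dg P K - 3 - s := by
  have h0 := inv_lvl hv
  by_cases h1 : P.n K ≤ 2
  · exact CS_low hBU1 hBU2 hs hs1 (by omega) hv ht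
  · have h2 := CS_low hBU1 hBU2 (P := P.mir) (K := -K) hs hs1
      (by rw [Pen.mir_n, neg_neg]; omega) (inv_mir.2 hv) (fun h => ht (isT_mir.1 h))
    rw [Pen.mir_mir, neg_neg, (hADJ.2.2.2.1 P K).2.2] at h2
    linarith

theorem isT_lvl {P : Pen} {K : Lam} (h : IsT P K) : 1 ≤ P.n K ∧ P.n K ≤ 4 := by
  obtain ⟨k, h | h | h | h⟩ := h
  · have := h.1
    omega
  · have := h.1
    omega
  · have := h.1
    rw [Pen.mir_n, neg_neg] at this
    omega
  · have := h.1
    rw [Pen.mir_n, neg_neg] at this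
    omega

theorem smul_summable {a : Lam → ℝ} (ha : Sq a) (c : Lam → ℝ) (C : ℝ) (hc : ∀ K, |c K| ≤ C) :
    Summable fun K => c K * a K ^ 2 := by
  refine Summable.of_norm_bounded (ha.mul_left C) fun K => ?_
  rw [Real.norm_eq_abs, abs_mul, abs_of_nonneg (sq_nonneg (a K))]
  exact mul_le_mul_of_nonneg_right (hc K) (sq_nonneg _)

theorem st_LBD (hSMT : ST_SMT) (hADJ : ST_ADJ) (hLBL : ST_LBL) (hBT : ST_BT) (hBU1 : ST_BU1)
    (hBU2 : ST_BU2) : ST_LBD := by
  intro P s a b hs hs1 ha hb hsa hsb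
  have hna := (hSMT.1 a ha).1
  have hnb := (hSMT.1 b hb).1
  have l1 : -(25 / 26 * s * ∑' K, lbdLoad P K * b K ^ 2) - ∑' K, lbdCost P s K * a K ^ 2 ≤
      s * BL P b a + ZL P a := hLBL P s a b hs.le ha hb
  have l2 : -(25 / 26 * s * ∑' K, lbdLoad P.mir K * ng b K ^ 2) -
      ∑' K, lbdCost P.mir s K * ng a K ^ 2 ≤
      s * BL P.mir (ng b) (ng a) + ZL P.mir (ng a) := hLBL P.mir s (ng a) (ng b) hs.le hna hnb
  have e1 : ∑' K, lbdLoad P.mir K * ng b K ^ 2 = ∑' K, lbdLoad P.mir (-K) * b K ^ 2 := by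
    rw [← (Equiv.neg Lam).tsum_eq]
    refine tsum_congr fun K => ?_
    simp only [Equiv.neg_apply, ng, neg_neg]
  have e2 : ∑' K, lbdCost P.mir s K * ng a K ^ 2 = ∑' K, lbdCost P.mir s (-K) * a K ^ 2 := by
    rw [← (Equiv.neg Lam).tsum_eq]
    refine tsum_congr fun K => ?_
    simp only [Equiv.neg_apply, ng, neg_neg]
  rw [e1, e2] at l2
  have m1 := smul_summable hb (fun K => lbdLoad P K) 100 fun K => load_bd P K
  have m2 := smul_summable hb (fun K => lbdLoad P.mir (-K)) 100 fun K => load_bd P.mir (-K)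
  have m3 := smul_summable ha (fun K => lbdCost P s K) 100 fun K => cost_bd P s hs hs1 K
  have m4 := smul_summable ha (fun K => lbdCost P.mir s (-K)) 100
    fun K => cost_bd P.mir s hs hs1 (-K)
  have m5 := smul_summable ha (fun K => dg P K - 3 - s) 100 fun K => by
    have := hADJ.2.2.2.1 P K
    rw [abs_le]
    constructor <;> linarith [this.1, this.2.1]
  have ha' : HasSum (fun K => a K ^ 2) (∑' K, a K ^ 2) := Summable.hasSum ha
  have hb' : HasSum (fun K => b K ^ 2) (∑' K, b K ^ 2) := Summable.hasSum hb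
  have q1 := ((m5.hasSum.sub m3.hasSum).sub m4.hasSum).sub (ha'.mul_left (s / 100))
  have r1 : 0 ≤ ∑' K, (dg P K - 3 - s) * a K ^ 2 - ∑' K, lbdCost P s K * a K ^ 2 -
      ∑' K, lbdCost P.mir s (-K) * a K ^ 2 - s / 100 * ∑' K, a K ^ 2 := by
    refine q1.nonneg fun K => ?_
    by_cases h0 : a K = 0
    · rw [h0]
      simp
    · have hv : InV P K := by
        by_contra hn
        exact h0 (hsa K (Or.inl hn))
      have ht : ¬ IsT P K := by
        intro hn
        exact h0 (hsa K (Or.inr hn))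
      have h1 := CS_le hADJ hBU1 hBU2 hs hs1 hv ht
      have h2 : (dg P K - 3 - s) * a K ^ 2 - lbdCost P s K * a K ^ 2 -
          lbdCost P.mir s (-K) * a K ^ 2 - s / 100 * a K ^ 2 =
          (dg P K - 3 - s - (lbdCost P s K + lbdCost P.mir s (-K) + s / 100)) * a K ^ 2 := by
        ring
      rw [h2]
      exact mul_nonneg (by linarith) (sq_nonneg _)
  have q2 := (((hb'.mul_left s).sub (m1.hasSum.mul_left (25 / 26 * s))).sub
    (m2.hasSum.mul_left (25 / 26 * s))).sub (hb'.mul_left (s / 100))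
  have r2 : 0 ≤ s * ∑' K, b K ^ 2 - 25 / 26 * s * ∑' K, lbdLoad P K * b K ^ 2 -
      25 / 26 * s * ∑' K, lbdLoad P.mir (-K) * b K ^ 2 - s / 100 * ∑' K, b K ^ 2 := by
    refine q2.nonneg fun K => ?_
    by_cases h0 : b K = 0
    · rw [h0]
      simp
    · have ht : IsT P K := by
        by_contra hn
        exact h0 (hsb K hn)
      have h3 := isT_lvl ht
      have h1 := LD_le hBT h3.1 h3.2
      have h2 : s * b K ^ 2 - 25 / 26 * s * (lbdLoad P K * b K ^ 2) -
          25 / 26 * s * (lbdLoad P.mir (-K) * b K ^ 2) - s / 100 * b K ^ 2 =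
          s * (1 - 25 / 26 * (lbdLoad P K + lbdLoad P.mir (-K)) - 1 / 100) * b K ^ 2 := by
        ring
      rw [h2]
      exact mul_nonneg (mul_nonneg hs.le (by linarith)) (sq_nonneg _)
  linarith

end Pool.Agent.Helper63.PN
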