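import Pool.Agent.Helper95.PN.Stmts

/-!
# Row PGB: the norm of `Pg g u`
-/

set_option autoImplicit false

namespace Pool.Agent.Helper95.PW

open MeasureTheory Filter

theorem pgb_nr_nonneg (y : R3) : 0 ≤ nr y := Real.sqrt_nonneg _

theorem pgb_sq (y : R3) : nr y ^ 2 = y 0 ^ 2 + y 1 ^ 2 + y 2 ^ 2 := Real.sq_sqrt (by positivity)

/-- if two nuclei are near `y` they are equal -/
theorem pgb_unique {M : ℕ} {X : Fin M → R3} {d : ℝ} (hd : 0 < d) (hX : Sep X d) (y : R3)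
    {i j : Fin M} (hi : nr (y - X i) < d) (hj : nr (y - X j) < d) : i = j := by
  by_contra h
  have h1 := hX i j h
  have a1 := pgb_sq (y - X i)
  have a2 := pgb_sq (y - X j)
  have a3 := pgb_sq (X i - X j)
  simp only [Pi.sub_apply] at a1 a2 a3
  have b1 : nr (y - X i) ^ 2 < d ^ 2 := by
    have := pgb_nr_nonneg (y - X i)
    nlinarith
  have b2 : nr (y - X j) ^ 2 < d ^ 2 := by
    have := pgb_nr_nonneg (y - X j)
    nlinarith
  have b3 : (4 * d) ^ 2 ≤ nr (X i - X j) ^ 2 := pow_le_pow_left₀ (by positivity) h1 2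
  have c0 := sq_nonneg ((y 0 - X i 0) + (y 0 - X j 0))
  have c1 := sq_nonneg ((y 1 - X i 1) + (y 1 - X j 1))
  have c2 := sq_nonneg ((y 2 - X i 2) + (y 2 - X j 2))
  nlinarith [sq_nonneg d]

theorem pgb_near {M : ℕ} {X : Fin M → R3} {d : ℝ} (hd : 0 < d) (hX : Sep X d) (y : R3) :
    near1 X d y ^ 2 = near2 X d y := by
  unfold near1 near2
  by_cases h : ∃ i, nr (y - X i) < d
  · obtain ⟨i, hi⟩ := h
    rw [Finset.sum_eq_single i, Finset.sum_eq_single i, if_pos hi, if_pos hi, one_div, one_div,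
      inv_pow]
    · intro j _ hj
      exact if_neg fun h => hj (pgb_unique hd hX y h hi)
    · intro h
      exact absurd (Finset.mem_univ i) h
    · intro j _ hj
      exact if_neg fun h => hj (pgb_unique hd hX y h hi)
    · intro h
      exact absurd (Finset.mem_univ i) h
  · push Not at h
    rw [Finset.sum_eq_zero, Finset.sum_eq_zero]
    · norm_num
    · intro j _
      exact if_neg (not_lt.2 (h j))
    · intro j _
      exact if_neg (not_lt.2 (h j))

theorem pgb_near_nonneg {M : ℕ} (X : Fin M → R3) (d : ℝ) (y : R3) : 0 ≤ near1 X d y := by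
  unfold near1
  refine Finset.sum_nonneg fun j _ => ?_
  split_ifs
  · have := pgb_nr_nonneg (y - X j)
    positivity
  · exact le_rfl

theorem pgb_near2_nonneg {M : ℕ} (X : Fin M → R3) (d : ℝ) (y : R3) : 0 ≤ near2 X d y := by
  unfold near2
  refine Finset.sum_nonneg fun j _ => ?_
  split_ifs
  · positivity
  · exact le_rfl

/-- the pointwise bound for one electron -/
theorem pgb_one {A : ℝ} (hA : 0 ≤ A) (a b : Fin 3 → ℝ) (l w v : ℝ) (ha : ∀ i, |a i| ≤ A)
    (hw : 0 ≤ w) (hl : |l| ≤ A * w) :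
    ((∑ i, a i * b i) + l / 2 * v) ^ 2 ≤ 7 * A ^ 2 * ((∑ i, b i ^ 2) + w ^ 2 * v ^ 2) := by
  have h1 : (∑ i, a i * b i) ^ 2 ≤ (∑ i, a i ^ 2) * ∑ i, b i ^ 2 :=
    Finset.sum_mul_sq_le_sq_mul_sq _ _ _
  have h2 : ∑ i, a i ^ 2 ≤ 3 * A ^ 2 := by
    calc ∑ i, a i ^ 2 ≤ ∑ _i : Fin 3, A ^ 2 := by
          refine Finset.sum_le_sum fun i _ => ?_
          rw [← sq_abs]
          exact pow_le_pow_left₀ (abs_nonneg _) (ha i) 2
      _ = 3 * A ^ 2 := by simp
  have hb : 0 ≤ ∑ i, b i ^ 2 := Finset.sum_nonneg fun i _ => sq_nonneg _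
  have h3 : (∑ i, a i * b i) ^ 2 ≤ 3 * A ^ 2 * ∑ i, b i ^ 2 :=
    h1.trans (mul_le_mul_of_nonneg_right h2 hb)
  have h4 : l ^ 2 ≤ A ^ 2 * w ^ 2 := by
    rw [← sq_abs, ← mul_pow]
    exact pow_le_pow_left₀ (abs_nonneg _) hl 2
  have h5 : (l / 2 * v) ^ 2 ≤ A ^ 2 * w ^ 2 * v ^ 2 / 4 := by
    have h6 := mul_le_mul_of_nonneg_right h4 (sq_nonneg v)
    calc (l / 2 * v) ^ 2 = l ^ 2 * v ^ 2 / 4 := by ring
      _ ≤ A ^ 2 * w ^ 2 * v ^ 2 / 4 := by linarith
  have h6 : 0 ≤ A ^ 2 * (∑ i, b i ^ 2) := mul_nonneg (sq_nonneg _) hb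
  have h7 : 0 ≤ A ^ 2 * w ^ 2 * v ^ 2 := by positivity
  have h8 : ((∑ i, a i * b i) + l / 2 * v) ^ 2 ≤
      2 * (∑ i, a i * b i) ^ 2 + 2 * (l / 2 * v) ^ 2 := by
    have := sq_nonneg ((∑ i, a i * b i) - l / 2 * v)
    nlinarith
  calc ((∑ i, a i * b i) + l / 2 * v) ^ 2
      ≤ 2 * (3 * A ^ 2 * ∑ i, b i ^ 2) + 2 * (A ^ 2 * w ^ 2 * v ^ 2 / 4) := by linarith
    _ = 6 * (A ^ 2 * ∑ i, b i ^ 2) + 1 / 2 * (A ^ 2 * w ^ 2 * v ^ 2) := by ring
    _ ≤ 7 * (A ^ 2 * ∑ i, b i ^ 2) + 7 * (A ^ 2 * w ^ 2 * v ^ 2) := by linarith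
    _ = 7 * A ^ 2 * ((∑ i, b i ^ 2) + w ^ 2 * v ^ 2) := by ring

theorem pgb_dv_int {n : ℕ} {u : Wf n} (hu : Sm u) (s : Fin n → Fin 2) (k : Fin n) (i : Fin 3) :
    Integrable (fun x => dv k i (u s) x ^ 2) := by
  have h1 : Continuous (fun x => dv k i (u s) x) := by
    unfold dv
    exact ((hu s).1.continuous_fderiv (by simp)).clm_apply continuous_const
  have h2 : HasCompactSupport (fun x => dv k i (u s) x) := by
    unfold dv
    exact (hu s).2.fderiv_apply (𝕜 := ℝ) _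
  have h3 : HasCompactSupport (fun x => dv k i (u s) x ^ 2) := by
    have h4 : (fun x => dv k i (u s) x ^ 2) = fun x => dv k i (u s) x * dv k i (u s) x := by
      funext x
      ring
    rw [h4]
    exact h2.mul_left
  exact (h1.pow 2).integrable_of_hasCompactSupport h3

theorem st_PGB (hH : ST_HLOC) : ST_PGB := by
  obtain ⟨C, hC, hH⟩ := hH
  intro n M X d A g u hd hX hA hg hg1 hgl hu
  obtain ⟨hint, -⟩ := hH n M X d u hd hX hu
  have hdvi : ∀ s, Integrable (fun x => ∑ k, ∑ i, dv k i (u s) x ^ 2) := fun s =>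
    integrable_finset_sum _ fun k _ => integrable_finset_sum _ fun i _ => pgb_dv_int hu s k i
  -- one spin
  have h1 : ∀ s, ∫ x, Pg g (u s) x ^ 2 ≤ ∫ x, 7 * A ^ 2 * n *
      ((∑ k, ∑ i, dv k i (u s) x ^ 2) + (∑ k, near2 X d (x k)) * u s x ^ 2) := by
    intro s
    refine integral_mono_of_nonneg (Eventually.of_forall fun x => sq_nonneg _)
      (((hdvi s).add (hint s)).const_mul _) ?_
    have hae : ∀ᵐ x : Cf n, ∀ (k : Fin n) (j : Fin M), x k ≠ X j := by
      rw [ae_all_iff]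
      intro k
      rw [ae_all_iff]
      intro j
      exact Measure.ae_eval_ne (μ := fun _ : Fin n => (volume : Measure R3)) k (X j)
    filter_upwards [hae] with x hx
    have hl : ∀ k, |lap g (x k)| ≤ A * near1 X d (x k) := by
      intro k
      refine hgl (x k) fun j hj => hx k j ?_
      have h2 := pgb_sq (x k - X j)
      rw [hj] at h2
      simp only [Pi.sub_apply] at h2
      have e0 := sq_nonneg (x k 0 - X j 0)
      have e1 := sq_nonneg (x k 1 - X j 1)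
      have e2 := sq_nonneg (x k 2 - X j 2)
      funext i
      fin_cases i
      · have : (x k 0 - X j 0) ^ 2 = 0 := by linarith
        exact sub_eq_zero.1 (pow_eq_zero_iff (two_ne_zero)|>.1 this)
      · have : (x k 1 - X j 1) ^ 2 = 0 := by linarith
        exact sub_eq_zero.1 (pow_eq_zero_iff (two_ne_zero)|>.1 this)
      · have : (x k 2 - X j 2) ^ 2 = 0 := by linarith
        exact sub_eq_zero.1 (pow_eq_zero_iff (two_ne_zero)|>.1 this)
    have h3 : Pg g (u s) x ^ 2 ≤ n * ∑ k : Fin n,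
        ((∑ i, pd i g (x k) * dv k i (u s) x) + lap g (x k) / 2 * u s x) ^ 2 := by
      unfold Pg
      have h4 := sq_sum_le_card_mul_sum_sq (s := (Finset.univ : Finset (Fin n)))
        (f := fun k => (∑ i, pd i g (x k) * dv k i (u s) x) + lap g (x k) / 2 * u s x)
      rwa [Finset.card_univ, Fintype.card_fin] at h4
    have h4 : ∑ k : Fin n,
        ((∑ i, pd i g (x k) * dv k i (u s) x) + lap g (x k) / 2 * u s x) ^ 2 ≤
        ∑ k : Fin n, 7 * A ^ 2 * ((∑ i, dv k i (u s) x ^ 2) + near2 X d (x k) * u s x ^ 2) := by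
      refine Finset.sum_le_sum fun k _ => ?_
      rw [← pgb_near hd hX]
      exact pgb_one hA (fun i => pd i g (x k)) (fun i => dv k i (u s) x) _ _ _
        (fun i => hg1 i (x k)) (pgb_near_nonneg X d _) (hl k)
    have hn : (0 : ℝ) ≤ n := Nat.cast_nonneg n
    calc Pg g (u s) x ^ 2
        ≤ n * ∑ k : Fin n, 7 * A ^ 2 *
          ((∑ i, dv k i (u s) x ^ 2) + near2 X d (x k) * u s x ^ 2) :=
          h3.trans (mul_le_mul_of_nonneg_left h4 hn)
      _ = 7 * A ^ 2 * n *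
          ((∑ k, ∑ i, dv k i (u s) x ^ 2) + (∑ k, near2 X d (x k)) * u s x ^ 2) := by
          rw [← Finset.mul_sum, Finset.sum_add_distrib, Finset.sum_mul]
          ring
  have h2 : ∀ s, ∫ x, 7 * A ^ 2 * n *
      ((∑ k, ∑ i, dv k i (u s) x ^ 2) + (∑ k, near2 X d (x k)) * u s x ^ 2) =
      7 * A ^ 2 * n * ((∑ k, ∑ i, ∫ x, dv k i (u s) x ^ 2) +
        ∫ x, (∑ k, near2 X d (x k)) * u s x ^ 2) := by
    intro s
    rw [integral_const_mul, integral_add (hdvi s) (hint s),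
      integral_finset_sum _ fun k _ => integrable_finset_sum _ fun i _ => pgb_dv_int hu s k i]
    congr 2
    refine Finset.sum_congr rfl fun k _ => ?_
    rw [integral_finset_sum _ fun i _ => pgb_dv_int hu s k i]
  have h3 : kin u = ∑ s, ∑ k, ∑ i, ∫ x, dv k i (u s) x ^ 2 := by
    unfold kin sq
    symm
    rw [Finset.sum_comm]
    refine Finset.sum_congr rfl fun k _ => ?_
    rw [Finset.sum_comm]
  have h4 : sq (fun s => Pg g (u s)) ≤ ∑ s, 7 * A ^ 2 * n *
      ((∑ k, ∑ i, ∫ x, dv k i (u s) x ^ 2) + ∫ x, (∑ k, near2 X d (x k)) * u s x ^ 2) := by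
    unfold sq
    refine Finset.sum_le_sum fun s _ => ?_
    rw [← h2 s]
    exact h1 s
  refine h4.trans (le_of_eq ?_)
  rw [← Finset.mul_sum, Finset.sum_add_distrib, ← h3]
  rfl

end Pool.Agent.Helper95.PW
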